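import Pool.Agent.H97.PRK.Targets

/-!
# CNB. Transfer of the splitting points to `α` (MP_e37c09_lc)
-/

open Ordinal Cardinal Order Set
open scoped ZFSet

universe u

namespace Pool.Agent.H19.PRK

open _root_.HD HD.PRK

/-- the first element of `S` which is at least `i` -/
noncomputable def CNBa (S : Set Ordinal.{u}) (i : Ordinal.{u}) : Ordinal.{u} :=
  sInf {a | ∃ y, nth S a y ∧ i ≤ y}

/-- the indices of the first elements of `S` above the elements of `X` -/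
def CNBw (S X : Set Ordinal.{u}) (α lam : Ordinal.{u}) : Set Ordinal.{u} :=
  {a | a < α ∧ ∃ i, i ∈ X ∧ i < lam ∧ (∃ y, nth S a y ∧ i ≤ y) ∧
    ∀ a' < a, ∀ y', nth S a' y' → y' < i}

theorem CNB_ds {S X : Set Ordinal.{u}} (α lam : Ordinal.{u}) (hS : DS S) (hX : DS X) :
    DS (CNBw S X α lam) := by
  have hn : DO.{u} fun w => nth S (w 0) (w 1) :=
    HD.All.db (fun a _ => a ∈ S) hS
  have h : DO.{u} fun w => w 0 < α ∧ ∃ i, i ∈ X ∧ i < lam ∧ (∃ y, nth S (w 0) y ∧ i ≤ y) ∧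
      ∀ a' < w 0, ∀ y', nth S a' y' → y' < i := by
    refine (DO.ltc 0 α).and (DO.ex (R := fun i w => i ∈ X ∧ i < lam ∧
      (∃ y, nth S (w 0) y ∧ i ≤ y) ∧ ∀ a' < w 0, ∀ y', nth S a' y' → y' < i) ?_)
    refine (DO.s1 (X := fun a => a ∈ X) hX 0).and ((DO.ltc 0 lam).and (DO.and ?_ ?_))
    · exact DO.ex (R := fun y w => nth S (w 1) y ∧ w 0 ≤ y)
        ((DO.s2 (X := nth S) hn 2 0).and (DO.le 1 0))
    · refine DO.allLt (R := fun a' w => ∀ y', nth S a' y' → y' < w 0) 1 ?_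
      exact DO.all (R := fun y' w => nth S (w 0) y' → y' < w 1)
        ((DO.s2 (X := nth S) hn 1 0).imp (DO.lt 0 2))
  exact h

theorem pf_CNB : T_CNB.{u} := by
  intro S X α δ lam hS hX hreg _ hδ ha hb hc hfew
  obtain ⟨-, vh2, -, -⟩ := HD.All.vh S
  refine hreg (CNBw S X α lam) (CNB_ds α lam hS hX) ?_ ?_
  · intro b hbα
    obtain ⟨z, hz, hnz⟩ := ha b hbα
    obtain ⟨i, hiX, hzi, hil⟩ := hc z hz
    obtain ⟨a, haα, y, hny, hiy⟩ := hb i hil
    have hne : (({a | ∃ y, nth S a y ∧ i ≤ y} : Set Ordinal.{u})).Nonempty := ⟨a, y, hny, hiy.le⟩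
    have hmem : ∃ y, nth S (CNBa S i) y ∧ i ≤ y := csInf_mem hne
    have hle : CNBa S i ≤ a := csInf_le' (show a ∈ {a | ∃ y, nth S a y ∧ i ≤ y} from
      ⟨y, hny, hiy.le⟩)
    have hcα : CNBa S i < α := hle.trans_lt haα
    refine ⟨CNBa S i, hcα, ?_, hcα, i, hiX, hil, hmem, ?_⟩
    · by_contra hlt
      push Not at hlt
      obtain ⟨y', hy', hiy'⟩ := hmem
      have h1 := (vh2 _ _ _ _ hy' hnz).1 hlt
      exact absurd (h1.trans hzi) (not_lt.mpr hiy')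
    · intro a' ha' y' hy'
      by_contra hge
      push Not at hge
      have : CNBa S i ≤ a' := csInf_le' (show a' ∈ {a | ∃ y, nth S a y ∧ i ≤ y} from
        ⟨y', hy', hge⟩)
      exact absurd ha' (not_lt.mpr this)
  · obtain ⟨τ, hτ, e, he⟩ := hfew
    refine ⟨τ, hτ.trans_le hδ, fun x => CNBa S (e x), ?_⟩
    rintro a ⟨⟨haα, i, hiX, hil, ⟨y, hy, hiy⟩, hmin⟩, -⟩
    obtain ⟨x, hx, hex⟩ := he i ⟨hiX, hil⟩
    refine ⟨x, hx, ?_⟩
    simp only
    rw [hex]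
    refine le_antisymm (csInf_le' (show a ∈ {a | ∃ y, nth S a y ∧ i ≤ y} from ⟨y, hy, hiy⟩)) ?_
    by_contra hlt
    push Not at hlt
    have hne : (({a | ∃ y, nth S a y ∧ i ≤ y} : Set Ordinal.{u})).Nonempty := ⟨a, y, hy, hiy⟩
    obtain ⟨y', hy', hiy'⟩ : ∃ y, nth S (CNBa S i) y ∧ i ≤ y := csInf_mem hne
    exact absurd (hmin _ hlt y' hy') (not_lt.mpr hiy')

end Pool.Agent.H19.PRK
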