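import Pool.Agent.H97.PRK.Targets

/-!
# NBF. Finitely many points do not matter (MP_e37c09_lc)
-/

open Ordinal Cardinal Order Set
open scoped ZFSet

universe u

namespace Pool.Agent.H19.PRK

open _root_.HD HD.PRK

theorem NBF_fin (T : Set Ordinal.{u}) (hT : T.Finite) :
    DZ.{u} fun v => ∃ b ∈ T, v 0 = b.toZFSet := by
  induction T, hT using Set.Finite.induction_on with
  | empty => exact (DZ.cst False).congr fun v => by simp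
  | @insert a s _ _ ih => exact ((DZ.eqOrd a 0).or ih).congr fun v => by simp

theorem NBF_odp {x x' B : ZFSet.{u}} {T : Set Ordinal.{u}} (hT : T.Finite)
    (hx : ∀ z, z ∈ x ↔ z ∈ x' ∨ ∃ b ∈ T, z = b.toZFSet) (h : NF.ODp x B) : NF.ODp x' B := by
  obtain ⟨R, hR, hRB⟩ := (Pool.Agent.H45.NF.pf_pa x B).1 h
  refine (Pool.Agent.H45.NF.pf_pa x' B).2
    ⟨ZFSet.sep (fun w => ∃ u z, w = ZFSet.pair u z ∧ ∃ t, (∀ y, y ∈ t ↔ y ∈ u ∨
      ∃ b ∈ T, y = b.toZFSet) ∧ ZFSet.pair t z ∈ R) (V_ ((ZFSet.pair x' B).rank + 1)),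
    Pool.Agent.H45.NF.od_sep (HD.NF.od_V _) ?_, fun z => ?_⟩
  · refine DZ.ex (R := fun u v => ∃ z, v 0 = ZFSet.pair u z ∧ ∃ t, (∀ y, y ∈ t ↔ y ∈ u ∨
      ∃ b ∈ T, y = b.toZFSet) ∧ ZFSet.pair t z ∈ R) (DZ.ex (R := fun z v =>
        v 1 = ZFSet.pair (v 0) z ∧ ∃ t, (∀ y, y ∈ t ↔ y ∈ v 0 ∨
      ∃ b ∈ T, y = b.toZFSet) ∧ ZFSet.pair t z ∈ R) ((loc_pair 2 1 0).dz.and (DZ.ex
        (R := fun t v => (∀ y, y ∈ t ↔ y ∈ v 1 ∨
      ∃ b ∈ T, y = b.toZFSet) ∧ ZFSet.pair t (v 0) ∈ R) (DZ.and (DZ.all (R := fun y v =>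
        y ∈ v 0 ↔ y ∈ v 2 ∨ ∃ b ∈ T, y = b.toZFSet) ((DZ.mem 0 1).iff ((DZ.mem 0 3).or
          ((NBF_fin T hT).ren fun _ => 0)))) ?_))))
    exact DZ.od (R := fun r v => ZFSet.pair (v 0) (v 1) ∈ r) hR (loc_pmem 1 2 0).dz
  · rw [ZFSet.mem_sep]
    constructor
    · rintro ⟨-, u, z', he, t, ht, htR⟩
      obtain ⟨rfl, rfl⟩ := ZFSet.pair_injective he
      have : t = x := by
        ext y
        rw [ht y, hx y]
      rw [this] at htR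
      exact (hRB z).1 htR
    · rintro rfl
      refine ⟨?_, x', z, rfl, x, hx, (hRB z).2 rfl⟩
      rw [ZFSet.mem_vonNeumann]
      exact lt_add_one _

theorem pf_NBF : T_NBF.{u} := by
  intro δ κ C h x hx a ha hfin B hB hod
  have hx' : ∀ z, z ∈ ZFSet.sep (fun z => a.toZFSet ⊆ z) x ↔ z ∈ x ∧ a.toZFSet ⊆ z := fun z =>
    ZFSet.mem_sep
  refine h (ZFSet.sep (fun z => a.toZFSet ⊆ z) x) ⟨⟨a.toZFSet, (hx' _).2 ⟨ha, subset_refl _⟩⟩,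
    fun z hz => hx.mem z ((hx' z).1 hz).1, ?_⟩ B (fun z hz => hB.trans ((hx' z).1 hz).2) ?_
  · obtain ⟨τ, hτ, g, hg⟩ := hx.few
    exact ⟨τ, hτ, g, fun b hb => hg b ((hx' _).1 hb).1⟩
  · refine NBF_odp hfin (fun z => ?_) hod
    rw [hx']
    constructor
    · intro hz
      obtain ⟨b, -, -, -, rfl⟩ := hx.mem z hz
      rcases le_or_gt a b with hab | hab
      · exact Or.inl ⟨hz, Ordinal.toZFSet_subset_toZFSet_iff.2 hab⟩
      · exact Or.inr ⟨b, ⟨hz, hab⟩, rfl⟩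
    · rintro (⟨hz, -⟩ | ⟨b, ⟨hb, -⟩, rfl⟩)
      · exact hz
      · exact hb

end Pool.Agent.H19.PRK
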